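import Pool.Agent.helper23.F2.Spec

/-!
# MP_26dbae_co, module AL5: random choice
-/

set_option autoImplicit false

open scoped BigOperators

namespace Pool.Agent.F2

open Pool.Agent.helper23.TH

theorem AL5_aux (X W : Type) [Fintype W] [DecidableEq W] [DecidableEq X] (S : Finset X) (B : X → X → Prop)
    [DecidablePred fun p : X × X => B p.1 p.2] (i j : W) (hij : i ≠ j) [DecidablePred fun f : W → X => B (f i) (f j)] :
    ((Fintype.piFinset fun _ : W => S).filter fun f => B (f i) (f j)).card * (S.card * S.card) ≤
      ((S ×ˢ S).filter fun p => B p.1 p.2).card * (Fintype.piFinset fun _ : W => S).card := by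
  rw [← Finset.card_product, ← Finset.card_product, ← Finset.card_product]
  apply Finset.card_le_card_of_injOn
    (fun q : (W → X) × (X × X) => ((q.1 i, q.1 j), Function.update (Function.update q.1 i q.2.1) j q.2.2))
  · intro q hq
    simp only [Finset.coe_product, Finset.coe_filter, Fintype.mem_piFinset, Set.mem_prod, Set.mem_ofPred_eq, Finset.mem_coe,
      Finset.mem_product] at hq ⊢
    obtain ⟨⟨hf, hb⟩, ha, hc⟩ := hq
    refine ⟨⟨⟨hf i, hf j⟩, hb⟩, fun k => ?_⟩
    by_cases hkj : k = j
    · subst hkj
      rw [Function.update_self]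
      exact hc
    · rw [Function.update_of_ne hkj]
      by_cases hki : k = i
      · subst hki
        rw [Function.update_self]
        exact ha
      · rw [Function.update_of_ne hki]
        exact hf k
  · rintro ⟨f, a, b⟩ _ ⟨f', a', b'⟩ _ h
    simp only [Prod.mk.injEq] at h
    obtain ⟨⟨h1, h2⟩, h3⟩ := h
    have hb : b = b' := by
      have := congrFun h3 j
      rwa [Function.update_self, Function.update_self] at this
    have ha : a = a' := by
      have := congrFun h3 i
      rwa [Function.update_of_ne hij, Function.update_of_ne hij, Function.update_self, Function.update_self] at this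
    have hf : f = f' := by
      funext k
      by_cases hkj : k = j
      · rw [hkj]
        exact h2
      · by_cases hki : k = i
        · rw [hki]
          exact h1
        · have := congrFun h3 k
          rwa [Function.update_of_ne hkj, Function.update_of_ne hkj, Function.update_of_ne hki, Function.update_of_ne hki] at this
    rw [ha, hb, hf]

theorem AL5 : AL5_stmt := by
  intro X W _ S B δ hS hB hδ hW
  classical
  by_contra hcon
  have hs : 0 < S.card := hS.card_pos
  have hsR : (0 : ℝ) < (S.card : ℝ) := by exact_mod_cast hs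
  have hP : 0 < (Fintype.piFinset fun _ : W => S).card := by
    rw [Finset.card_pos, Fintype.piFinset_nonempty]
    exact fun _ => hS
  have hPR : (0 : ℝ) < ((Fintype.piFinset fun _ : W => S).card : ℝ) := by exact_mod_cast hP
  have hcover : (Fintype.piFinset fun _ : W => S) ⊆
      ((Finset.univ : Finset (W × W)).filter fun p => p.1 ≠ p.2).biUnion
        fun p => (Fintype.piFinset fun _ : W => S).filter fun f => B (f p.1) (f p.2) := by
    intro f hf
    by_contra h
    apply hcon
    refine ⟨f, fun i => Fintype.mem_piFinset.mp hf i, fun i j hij hb => h ?_⟩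
    rw [Finset.mem_biUnion]
    exact ⟨(i, j), Finset.mem_filter.mpr ⟨Finset.mem_univ _, hij⟩, Finset.mem_filter.mpr ⟨hf, hb⟩⟩
  have h1 := (Finset.card_le_card hcover).trans Finset.card_biUnion_le
  have h2 : ∀ p ∈ (Finset.univ : Finset (W × W)).filter (fun p => p.1 ≠ p.2),
      (((Fintype.piFinset fun _ : W => S).filter fun f => B (f p.1) (f p.2)).card : ℝ) ≤
        δ * ((Fintype.piFinset fun _ : W => S).card : ℝ) := by
    intro p hp
    have hne : p.1 ≠ p.2 := (Finset.mem_filter.mp hp).2
    have h3 := AL5_aux X W S B p.1 p.2 hne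
    have h4 : (((Fintype.piFinset fun _ : W => S).filter fun f => B (f p.1) (f p.2)).card : ℝ) * ((S.card : ℝ) * S.card) ≤
        (((S ×ˢ S).filter fun p => B p.1 p.2).card : ℝ) * ((Fintype.piFinset fun _ : W => S).card : ℝ) := by
      exact_mod_cast h3
    have h5 : (((S ×ˢ S).filter fun p => B p.1 p.2).card : ℝ) ≤ δ * (S.card : ℝ) ^ 2 := by
      refine le_trans (le_of_eq ?_) hB
      norm_cast
    have h6 : (((Fintype.piFinset fun _ : W => S).filter fun f => B (f p.1) (f p.2)).card : ℝ) * ((S.card : ℝ) * S.card) ≤
        (δ * ((Fintype.piFinset fun _ : W => S).card : ℝ)) * ((S.card : ℝ) * S.card) := by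
      calc _ ≤ _ := h4
        _ ≤ (δ * (S.card : ℝ) ^ 2) * ((Fintype.piFinset fun _ : W => S).card : ℝ) := mul_le_mul_of_nonneg_right h5 hPR.le
        _ = _ := by ring
    exact le_of_mul_le_mul_right h6 (by positivity)
  have h7 : ((Fintype.piFinset fun _ : W => S).card : ℝ) ≤
      ∑ p ∈ (Finset.univ : Finset (W × W)).filter (fun p => p.1 ≠ p.2),
        (((Fintype.piFinset fun _ : W => S).filter fun f => B (f p.1) (f p.2)).card : ℝ) := by
    exact_mod_cast h1
  have h8 : (((Finset.univ : Finset (W × W)).filter fun p => p.1 ≠ p.2).card : ℝ) ≤ (Fintype.card W : ℝ) ^ 2 := by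
    have : ((Finset.univ : Finset (W × W)).filter fun p => p.1 ≠ p.2).card ≤ Fintype.card W ^ 2 := by
      refine (Finset.card_filter_le _ _).trans (le_of_eq ?_)
      rw [Finset.card_univ, Fintype.card_prod, sq]
    exact_mod_cast this
  have h9 : ((Fintype.piFinset fun _ : W => S).card : ℝ) ≤
      (Fintype.card W : ℝ) ^ 2 * (δ * ((Fintype.piFinset fun _ : W => S).card : ℝ)) := by
    refine h7.trans ((Finset.sum_le_sum h2).trans ?_)
    rw [Finset.sum_const, nsmul_eq_mul]
    exact mul_le_mul_of_nonneg_right h8 (by positivity)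
  have h10 : (Fintype.card W : ℝ) ^ 2 * (δ * ((Fintype.piFinset fun _ : W => S).card : ℝ)) <
      ((Fintype.piFinset fun _ : W => S).card : ℝ) := by
    calc _ = (δ * (Fintype.card W : ℝ) ^ 2) * ((Fintype.piFinset fun _ : W => S).card : ℝ) := by ring
      _ < 1 * ((Fintype.piFinset fun _ : W => S).card : ℝ) := mul_lt_mul_of_pos_right hW hPR
      _ = _ := one_mul _
  linarith

end Pool.Agent.F2
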